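import Pool.Agent.W5h31.MS.F4
import Pool.Agent.W5h31.MS.G4
import Pool.Agent.W5h31.MS.Mean

/-!
Pairs of vectors at which a generic diagonal form takes nearly equal values.
-/

namespace Pool.Agent.W5h31.MT

open MeasureTheory Filter Topology
open Pool.Agent.W5h31.MS (mu L)

theorem vol_slab (d c : ℝ) (hd : d ≠ 0) :
    volume {a : ℝ | |a * d + c| ≤ 1} ≤ ENNReal.ofReal (2 / |d|) := by
  have hd' : 0 < |d| := abs_pos.mpr hd
  have hsub : {a : ℝ | |a * d + c| ≤ 1} ⊆ Set.Icc (-c / d - 1 / |d|) (-c / d + 1 / |d|) := by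
    intro a ha
    have ha' : |a * d + c| ≤ 1 := ha
    have h1 : |a - -c / d| ≤ 1 / |d| := by
      rw [le_div_iff₀ hd', ← abs_mul]
      have : (a - -c / d) * d = a * d + c := by field_simp; ring
      rw [this]; exact ha'
    have h2 := abs_le.mp h1
    constructor <;> linarith [h2.1, h2.2]
  refine (measure_mono hsub).trans ?_
  rw [Real.volume_Icc]
  refine ENNReal.ofReal_le_ofReal (le_of_eq ?_)
  ring

theorem slab (n : ℕ) (A B : ℝ) (hAB : A ≤ B) (d : Fin (n + 1) → ℝ) (i : Fin (n + 1))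
    (hd : d i ≠ 0) :
    mu (n + 1) A B {α | |∑ j, α j * d j| ≤ 1} ≤ ENNReal.ofReal ((B - A) ^ n * (2 / |d i|)) := by
  set μ : Measure ℝ := volume.restrict (Set.Icc A B) with hμ
  have mp := measurePreserving_piFinSuccAbove (fun _ : Fin (n + 1) => μ) i
  set T : Set (ℝ × (Fin n → ℝ)) :=
    {p | |p.1 * d i + ∑ j, p.2 j * d (i.succAbove j)| ≤ 1} with hT
  have hTm : MeasurableSet T := by
    refine (isClosed_le ?_ continuous_const).measurableSet
    fun_prop
  have hpre : {α : Fin (n + 1) → ℝ | |∑ j, α j * d j| ≤ 1} =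
      (MeasurableEquiv.piFinSuccAbove (fun _ => ℝ) i) ⁻¹' T := by
    ext α
    simp only [Set.mem_preimage, hT, Set.mem_ofPred_eq]
    rw [Fin.sum_univ_succAbove _ i]
    rfl
  have h1 : mu (n + 1) A B {α | |∑ j, α j * d j| ≤ 1} =
      (μ.prod (Measure.pi fun _ : Fin n => μ)) T := by
    rw [hpre]
    exact mp.measure_preimage hTm.nullMeasurableSet
  rw [h1, Measure.prod_apply_symm hTm]
  have h2 : ∀ β : Fin n → ℝ, μ ((fun a => (a, β)) ⁻¹' T) ≤ ENNReal.ofReal (2 / |d i|) := by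
    intro β
    refine (Measure.restrict_le_self _).trans ?_
    exact vol_slab (d i) (∑ j, β j * d (i.succAbove j)) hd
  refine (lintegral_mono h2).trans ?_
  rw [lintegral_const, Measure.pi_univ]
  have h3 : μ Set.univ = ENNReal.ofReal (B - A) := by
    rw [hμ, Measure.restrict_apply_univ, Real.volume_Icc]
  rw [Finset.prod_const, h3, Finset.card_univ, Fintype.card_fin, ← ENNReal.ofReal_pow (by linarith),
    ← ENNReal.ofReal_mul (by positivity)]
  refine ENNReal.ofReal_le_ofReal (le_of_eq ?_)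
  ring

/-- The box of vectors with entries in `[N, 2N)`. -/
def box (l N : ℕ) : Finset (Fin l → ℕ) := Fintype.piFinset fun _ => Finset.Ico N (2 * N)

theorem card_box (l N : ℕ) : (box l N).card = N ^ l := by
  unfold box
  rw [Fintype.card_piFinset]
  simp [two_mul]

theorem pow_gap {k : ℕ} (hk : 1 ≤ k) {N a b : ℕ} (ha : N ≤ a) (hb : N ≤ b) :
    |(a : ℝ) - b| * (N : ℝ) ^ (k - 1) ≤ |(a : ℝ) ^ k - (b : ℝ) ^ k| := by
  have key : ∀ a b : ℕ, N ≤ a → N ≤ b → b ≤ a →
      |(a : ℝ) - b| * (N : ℝ) ^ (k - 1) ≤ |(a : ℝ) ^ k - (b : ℝ) ^ k| := by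
    intro a b ha hb hab
    have h1 : (b : ℝ) ≤ a := by exact_mod_cast hab
    have h2 : (N : ℝ) ≤ a := by exact_mod_cast ha
    have hb0 : (0 : ℝ) ≤ b := by positivity
    have hN0 : (0 : ℝ) ≤ N := by positivity
    have h3 : (b : ℝ) ^ k ≤ (a : ℝ) ^ k := pow_le_pow_left₀ hb0 h1 k
    rw [abs_of_nonneg (by linarith), abs_of_nonneg (by linarith)]
    obtain ⟨t, rfl⟩ : ∃ t, k = t + 1 := ⟨k - 1, by omega⟩
    have e : t + 1 - 1 = t := by omega
    rw [e, pow_succ, pow_succ]
    have h4 : (b : ℝ) ^ t ≤ (a : ℝ) ^ t := pow_le_pow_left₀ hb0 h1 t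
    have h5 : (N : ℝ) ^ t ≤ (a : ℝ) ^ t := pow_le_pow_left₀ hN0 h2 t
    have h6 : ((a : ℝ) - b) * (N : ℝ) ^ t ≤ ((a : ℝ) - b) * (a : ℝ) ^ t :=
      mul_le_mul_of_nonneg_left h5 (by linarith)
    have h7 : (b : ℝ) ^ t * b ≤ (a : ℝ) ^ t * b := mul_le_mul_of_nonneg_right h4 hb0
    nlinarith
  rcases le_total b a with h | h
  · exact key a b ha hb h
  · rw [abs_sub_comm (a : ℝ) b, abs_sub_comm ((a : ℝ) ^ k)]
    exact key b a hb ha h

/-- The kernel of the sums over pairs. -/
noncomputable def gk (c : ℝ) (a b : ℕ) : ℝ := if a = b then 0 else c / |(a : ℝ) - b|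

theorem gk_nonneg {c : ℝ} (hc : 0 ≤ c) (a b : ℕ) : 0 ≤ gk c a b := by
  unfold gk
  split_ifs
  · exact le_refl 0
  · positivity

theorem one_side (N a : ℕ) (f : ℕ → ℕ) (S : Finset ℕ) (hf : Set.InjOn f S)
    (hr : ∀ b ∈ S, f b < N) (hv : ∀ b ∈ S, |(a : ℝ) - b| = ((f b + 1 : ℕ) : ℝ)) :
    ∑ b ∈ S, 1 / |(a : ℝ) - b| ≤ 1 + Real.log N := by
  have h1 : ∑ b ∈ S, 1 / |(a : ℝ) - b| = ∑ t ∈ S.image f, (((t + 1 : ℕ) : ℝ))⁻¹ := by
    rw [Finset.sum_image hf]
    refine Finset.sum_congr rfl fun b hb => ?_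
    rw [hv b hb, one_div]
  rw [h1]
  refine le_trans (Finset.sum_le_sum_of_subset_of_nonneg (t := Finset.range N) ?_
    (fun t _ _ => by positivity)) (Pool.Agent.W5h31.MS.harm_real N)
  intro t ht
  obtain ⟨b, hb, rfl⟩ := Finset.mem_image.mp ht
  exact Finset.mem_range.mpr (hr b hb)

theorem row_sum (N a : ℕ) (c : ℝ) (hc : 0 ≤ c) (ha : a ∈ Finset.Ico N (2 * N)) :
    ∑ b ∈ Finset.Ico N (2 * N), gk c a b ≤ 2 * c * (1 + Real.log N) := by
  rw [Finset.mem_Ico] at ha
  have h0 : ∑ b ∈ Finset.Ico N (2 * N), gk c a b =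
      ∑ b ∈ (Finset.Ico N (2 * N)).filter (fun b => b < a), c * (1 / |(a : ℝ) - b|) +
      ∑ b ∈ (Finset.Ico N (2 * N)).filter (fun b => a < b), c * (1 / |(a : ℝ) - b|) := by
    rw [Finset.sum_filter, Finset.sum_filter, ← Finset.sum_add_distrib]
    refine Finset.sum_congr rfl fun b _ => ?_
    unfold gk
    rcases lt_trichotomy a b with h | h | h
    · rw [if_neg h.ne, if_neg (by omega), if_pos h]; ring
    · rw [if_pos h, if_neg (by omega), if_neg (by omega)]; ring
    · rw [if_neg h.ne', if_pos h, if_neg (by omega)]; ring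
  rw [h0, ← Finset.mul_sum, ← Finset.mul_sum]
  have h1 : ∑ b ∈ (Finset.Ico N (2 * N)).filter (fun b => b < a), 1 / |(a : ℝ) - b| ≤
      1 + Real.log N := by
    refine one_side N a (fun b => a - b - 1) _ ?_ ?_ ?_
    · intro b hb b' hb' h
      have h2 := (Finset.mem_filter.mp hb).2
      have h3 := (Finset.mem_filter.mp hb').2
      simp only at h
      omega
    · intro b hb
      have h2 := (Finset.mem_filter.mp hb)
      have h3 := Finset.mem_Ico.mp h2.1
      omega
    · intro b hb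
      have h2 := (Finset.mem_filter.mp hb).2
      have h3 : ((a - b - 1 + 1 : ℕ) : ℝ) = (a : ℝ) - b := by
        have : a - b - 1 + 1 = a - b := by omega
        rw [this, Nat.cast_sub h2.le]
      rw [h3]
      have : (b : ℝ) < a := by exact_mod_cast h2
      exact abs_of_pos (by linarith)
  have h2 : ∑ b ∈ (Finset.Ico N (2 * N)).filter (fun b => a < b), 1 / |(a : ℝ) - b| ≤
      1 + Real.log N := by
    refine one_side N a (fun b => b - a - 1) _ ?_ ?_ ?_
    · intro b hb b' hb' h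
      have h2 := (Finset.mem_filter.mp hb).2
      have h3 := (Finset.mem_filter.mp hb').2
      simp only at h
      omega
    · intro b hb
      have h2 := (Finset.mem_filter.mp hb)
      have h3 := Finset.mem_Ico.mp h2.1
      omega
    · intro b hb
      have h2 := (Finset.mem_filter.mp hb).2
      have h3 : ((b - a - 1 + 1 : ℕ) : ℝ) = (b : ℝ) - a := by
        have : b - a - 1 + 1 = b - a := by omega
        rw [this, Nat.cast_sub h2.le]
      rw [h3, abs_sub_comm]
      have : (a : ℝ) < b := by exact_mod_cast h2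
      exact abs_of_pos (by linarith)
  nlinarith [mul_le_mul_of_nonneg_left h1 hc, mul_le_mul_of_nonneg_left h2 hc]

/-- The double sum over the box of a function of one coordinate of each vector. -/
theorem dbl_sum (n N : ℕ) (i : Fin (n + 1)) (c : ℝ) (hc : 0 ≤ c) :
    ∑ m ∈ box (n + 1) N, ∑ m' ∈ box (n + 1) N, gk c (m i) (m' i) ≤
      (N : ℝ) ^ (2 * n + 1) * (2 * c * (1 + Real.log N)) := by
  have hS : (Finset.Ico N (2 * N)).card = N := by simp [two_mul]
  have h1 : ∀ m ∈ box (n + 1) N, ∑ m' ∈ box (n + 1) N, gk c (m i) (m' i) ≤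
      (N : ℝ) ^ n * (2 * c * (1 + Real.log N)) := by
    intro m hm
    unfold box
    rw [Fintype.sum_piFinset_apply (fun b => gk c (m i) b) (Finset.Ico N (2 * N)) i, hS,
      Fintype.card_fin]
    have e : n + 1 - 1 = n := by omega
    rw [e, nsmul_eq_mul]
    push_cast
    refine mul_le_mul_of_nonneg_left ?_ (by positivity)
    unfold box at hm
    exact row_sum N (m i) c hc (Fintype.mem_piFinset.mp hm i)
  calc ∑ m ∈ box (n + 1) N, ∑ m' ∈ box (n + 1) N, gk c (m i) (m' i) ≤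
      ∑ m ∈ box (n + 1) N, (N : ℝ) ^ n * (2 * c * (1 + Real.log N)) := Finset.sum_le_sum h1
    _ = (N : ℝ) ^ (2 * n + 1) * (2 * c * (1 + Real.log N)) := by
        rw [Finset.sum_const, card_box, nsmul_eq_mul]
        push_cast
        ring

/-- The number of ordered pairs of different vectors with values at distance at most one. -/
noncomputable def Off (k n N : ℕ) (α : Fin (n + 1) → ℝ) : ENNReal :=
  ∑ m ∈ box (n + 1) N, ∑ m' ∈ box (n + 1) N,
    if m = m' then 0 else Set.indicator {α : Fin (n + 1) → ℝ | |L k α m - L k α m'| ≤ 1} 1 α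

theorem meas_set (k n : ℕ) (m m' : Fin (n + 1) → ℕ) :
    MeasurableSet {α : Fin (n + 1) → ℝ | |L k α m - L k α m'| ≤ 1} := by
  refine (isClosed_le ?_ continuous_const).measurableSet
  unfold Pool.Agent.W5h31.MS.L
  fun_prop

theorem Off_meas (k n N : ℕ) : Measurable (Off k n N) := by
  unfold Off
  refine Finset.measurable_fun_sum _ fun m _ => Finset.measurable_fun_sum _ fun m' _ => ?_
  split_ifs
  · exact measurable_const
  · exact measurable_one.indicator (meas_set k n m m')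

theorem Off_int (k n N : ℕ) (hk : 1 ≤ k) (hN : 1 ≤ N) (A B : ℝ) (hAB : A ≤ B) :
    ∫⁻ α, Off k n N α ∂(mu (n + 1) A B) ≤
      ENNReal.ofReal ((n + 1) * ((N : ℝ) ^ (2 * n + 1) *
        (2 * ((B - A) ^ n * 2 / (N : ℝ) ^ (k - 1)) * (1 + Real.log N)))) := by
  have hN0 : (0 : ℝ) < N := by exact_mod_cast hN
  have hBA : 0 ≤ B - A := by linarith
  set c : ℝ := (B - A) ^ n * 2 / (N : ℝ) ^ (k - 1) with hc
  have hc0 : 0 ≤ c := by positivity
  have hterm : ∀ m ∈ box (n + 1) N, ∀ m' ∈ box (n + 1) N,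
      ∫⁻ α, (if m = m' then 0 else
        Set.indicator {α : Fin (n + 1) → ℝ | |L k α m - L k α m'| ≤ 1} 1 α) ∂(mu (n + 1) A B) ≤
        ENNReal.ofReal (∑ i, gk c (m i) (m' i)) := by
    intro m hm m' hm'
    by_cases h : m = m'
    · simp [h]
    · simp only [if_neg h]
      rw [lintegral_indicator_one (meas_set k n m m')]
      obtain ⟨i, hi⟩ : ∃ i, m i ≠ m' i := by
        by_contra hcon
        push Not at hcon
        exact h (funext hcon)
      unfold box at hm hm'
      have hmi := Finset.mem_Ico.mp (Fintype.mem_piFinset.mp hm i)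
      have hmi' := Finset.mem_Ico.mp (Fintype.mem_piFinset.mp hm' i)
      have hgap := pow_gap hk hmi.1 hmi'.1
      have hab : 0 < |(m i : ℝ) - m' i| := by
        rw [abs_pos, sub_ne_zero]; exact_mod_cast hi
      have hdpos : 0 < |(m i : ℝ) ^ k - (m' i : ℝ) ^ k| := lt_of_lt_of_le (by positivity) hgap
      have hset : {α : Fin (n + 1) → ℝ | |L k α m - L k α m'| ≤ 1} =
          {α | |∑ j, α j * ((m j : ℝ) ^ k - (m' j : ℝ) ^ k)| ≤ 1} := by
        ext α
        simp only [Set.mem_ofPred_eq]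
        unfold Pool.Agent.W5h31.MS.L
        rw [← Finset.sum_sub_distrib]
        simp_rw [mul_sub]
      rw [hset]
      refine (slab n A B hAB _ i (abs_pos.mp hdpos)).trans (ENNReal.ofReal_le_ofReal ?_)
      have h1 : (B - A) ^ n * (2 / |(m i : ℝ) ^ k - (m' i : ℝ) ^ k|) ≤ gk c (m i) (m' i) := by
        unfold gk
        rw [if_neg hi, hc]
        have h2 : 2 / |(m i : ℝ) ^ k - (m' i : ℝ) ^ k| ≤
            2 / (|(m i : ℝ) - m' i| * (N : ℝ) ^ (k - 1)) :=
          div_le_div_of_nonneg_left (by norm_num) (by positivity) hgap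
        calc (B - A) ^ n * (2 / |(m i : ℝ) ^ k - (m' i : ℝ) ^ k|) ≤
            (B - A) ^ n * (2 / (|(m i : ℝ) - m' i| * (N : ℝ) ^ (k - 1))) :=
              mul_le_mul_of_nonneg_left h2 (by positivity)
          _ = _ := by field_simp
      refine h1.trans ?_
      exact Finset.single_le_sum (f := fun i => gk c (m i) (m' i))
        (fun j _ => gk_nonneg hc0 _ _) (Finset.mem_univ i)
  unfold Off
  rw [lintegral_finsetSum' _ (fun m _ => (Finset.measurable_fun_sum _ fun m' _ => by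
    split_ifs
    · exact measurable_const
    · exact measurable_one.indicator (meas_set k n m m')).aemeasurable)]
  have h2 : ∀ m ∈ box (n + 1) N, ∫⁻ α, ∑ m' ∈ box (n + 1) N, (if m = m' then 0 else
        Set.indicator {α : Fin (n + 1) → ℝ | |L k α m - L k α m'| ≤ 1} 1 α) ∂(mu (n + 1) A B) ≤
      ENNReal.ofReal (∑ m' ∈ box (n + 1) N, ∑ i, gk c (m i) (m' i)) := by
    intro m hm
    rw [lintegral_finsetSum' _ (fun m' _ => by
      split_ifs
      · exact aemeasurable_const
      · exact (measurable_one.indicator (meas_set k n m m')).aemeasurable),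
      ENNReal.ofReal_sum_of_nonneg (fun m' _ => Finset.sum_nonneg fun i _ => gk_nonneg hc0 _ _)]
    exact Finset.sum_le_sum fun m' hm' => hterm m hm m' hm'
  refine (Finset.sum_le_sum h2).trans ?_
  rw [← ENNReal.ofReal_sum_of_nonneg (fun m _ => Finset.sum_nonneg fun m' _ =>
    Finset.sum_nonneg fun i _ => gk_nonneg hc0 _ _)]
  refine ENNReal.ofReal_le_ofReal ?_
  have h4 : ∑ m ∈ box (n + 1) N, ∑ m' ∈ box (n + 1) N, ∑ i, gk c (m i) (m' i) =
      ∑ i, ∑ m ∈ box (n + 1) N, ∑ m' ∈ box (n + 1) N, gk c (m i) (m' i) := by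
    have e1 : ∀ m ∈ box (n + 1) N, ∑ m' ∈ box (n + 1) N, ∑ i, gk c (m i) (m' i) =
        ∑ i, ∑ m' ∈ box (n + 1) N, gk c (m i) (m' i) := fun m _ => Finset.sum_comm
    rw [Finset.sum_congr rfl e1, Finset.sum_comm]
  rw [h4]
  calc ∑ i, ∑ m ∈ box (n + 1) N, ∑ m' ∈ box (n + 1) N, gk c (m i) (m' i) ≤
      ∑ _i : Fin (n + 1), (N : ℝ) ^ (2 * n + 1) * (2 * c * (1 + Real.log N)) :=
        Finset.sum_le_sum fun i _ => dbl_sum n N i c hc0
    _ = _ := by
        rw [Finset.sum_const, Finset.card_univ, Fintype.card_fin, nsmul_eq_mul]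
        push_cast
        ring

end Pool.Agent.W5h31.MT
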