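import Pool.Agent.W5h31.MT.Cnt

/-!
Many integers near the values of a generic diagonal form in at most `k` variables.
-/

namespace Pool.Agent.W5h31.MT

open MeasureTheory Filter Topology
open Pool.Agent.W5h31.MS (mu L)

/-- Almost everywhere there are few pairs with nearly equal values at all large scales, with a
loss `W j`. -/
theorem ae_few (k n : ℕ) (hk : 1 ≤ k) (A B : ℝ) (hAB : A ≤ B) (W : ℕ → ℝ) (hW : ∀ j, 0 < W j)
    (hsum : Summable fun j : ℕ => ((2 : ℝ) ^ j) ^ n / ((2 : ℝ) ^ j) ^ (k - 1) * ((j : ℝ) + 1) / W j) :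
    ∀ᵐ α ∂(mu (n + 1) A B), ∀ᶠ j : ℕ in atTop,
      Off k n (2 ^ j) α ≤ ENNReal.ofReal (W j * ((2 : ℝ) ^ j) ^ (n + 1)) := by
  have hBA : 0 ≤ B - A := by linarith
  set C : ℝ := (n + 1) * (2 * ((B - A) ^ n * 2)) with hC
  have hC0 : 0 ≤ C := by positivity
  set F : ℕ → (Fin (n + 1) → ℝ) → ENNReal := fun j α =>
    Off k n (2 ^ j) α * ENNReal.ofReal (1 / (W j * ((2 : ℝ) ^ j) ^ (n + 1))) with hF
  have hmeas : ∀ j, Measurable (F j) := fun j => (Off_meas _ _ _).mul_const _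
  have hint : ∀ j, ∫⁻ α, F j α ∂(mu (n + 1) A B) ≤
      ENNReal.ofReal (C * (((2 : ℝ) ^ j) ^ n / ((2 : ℝ) ^ j) ^ (k - 1) * ((j : ℝ) + 1) / W j)) := by
    intro j
    rw [hF]
    simp only
    rw [lintegral_mul_const _ (Off_meas _ _ _)]
    have h1 := Off_int k n (2 ^ j) hk (Nat.one_le_iff_ne_zero.mpr (by positivity)) A B hAB
    refine (mul_le_mul_left h1 _).trans ?_
    have hWj := hW j
    rw [← ENNReal.ofReal_mul' (by positivity)]
    refine ENNReal.ofReal_le_ofReal ?_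
    have hlog := Pool.Agent.W5h31.MS.one_log2 j
    have hcast : ((2 ^ j : ℕ) : ℝ) = (2 : ℝ) ^ j := by push_cast; ring
    have hN0 : (0 : ℝ) < 2 ^ j := by positivity
    rw [hcast] at hlog ⊢
    generalize (2 : ℝ) ^ j = N at *
    have e1 : (n + 1) * (N ^ (2 * n + 1) * (2 * ((B - A) ^ n * 2 / N ^ (k - 1)) *
        (1 + Real.log N))) * (1 / (W j * N ^ (n + 1))) =
        C * (N ^ n / N ^ (k - 1) / W j) * (1 + Real.log N) := by
      rw [hC, show 2 * n + 1 = n + (n + 1) by ring, pow_add N n (n + 1)]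
      field_simp
    have e2 : C * (N ^ n / N ^ (k - 1) * ((j : ℝ) + 1) / W j) =
        C * (N ^ n / N ^ (k - 1) / W j) * ((j : ℝ) + 1) := by ring
    rw [e1, e2]
    exact mul_le_mul_of_nonneg_left hlog (by positivity)
  have hsum' : ∑' j, ∫⁻ α, F j α ∂(mu (n + 1) A B) ≠ ⊤ := by
    refine ne_top_of_le_ne_top ?_ (ENNReal.tsum_le_tsum hint)
    rw [← ENNReal.ofReal_tsum_of_nonneg (fun j => by have := hW j; positivity) (hsum.mul_left C)]
    exact ENNReal.ofReal_ne_top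
  have hfin : ∫⁻ α, ∑' j, F j α ∂(mu (n + 1) A B) ≠ ⊤ := by
    rw [lintegral_tsum (fun j => (hmeas j).aemeasurable)]
    exact hsum'
  have hae := ae_lt_top (Measurable.tsum hmeas) hfin
  filter_upwards [hae] with α hα
  have ht := ENNReal.tendsto_atTop_zero_of_tsum_ne_top hα.ne
  have hev : ∀ᶠ j in atTop, F j α ≤ 1 :=
    (ht.eventually (gt_mem_nhds (show (0 : ENNReal) < 1 by norm_num))).mono fun j hj => hj.le
  filter_upwards [hev] with j hj
  have hX : 0 < W j * ((2 : ℝ) ^ j) ^ (n + 1) := mul_pos (hW j) (by positivity)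
  have e : Off k n (2 ^ j) α = F j α * ENNReal.ofReal (W j * ((2 : ℝ) ^ j) ^ (n + 1)) := by
    rw [hF]
    simp only
    rw [mul_assoc, ← ENNReal.ofReal_mul (by positivity), one_div_mul_cancel hX.ne',
      ENNReal.ofReal_one, mul_one]
  rw [e]
  calc F j α * ENNReal.ofReal (W j * ((2 : ℝ) ^ j) ^ (n + 1)) ≤
      1 * ENNReal.ofReal (W j * ((2 : ℝ) ^ j) ^ (n + 1)) := mul_le_mul_left hj _
    _ = _ := one_mul _

open Classical in
/-- The number of pairs as a natural number. -/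
noncomputable def Qn (k n N : ℕ) (α : Fin (n + 1) → ℝ) : ℕ :=
  ∑ m ∈ box (n + 1) N, ∑ m' ∈ box (n + 1) N,
    if m = m' then 0 else if |L k α m - L k α m'| ≤ 1 then 1 else 0

theorem Off_eq (k n N : ℕ) (α : Fin (n + 1) → ℝ) : Off k n N α = (Qn k n N α : ENNReal) := by
  classical
  unfold Off Qn
  push_cast
  refine Finset.sum_congr rfl fun m _ => Finset.sum_congr rfl fun m' _ => ?_
  by_cases h : m = m'
  · simp [h]
  · simp only [if_neg h]
    by_cases h2 : |L k α m - L k α m'| ≤ 1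
    · rw [if_pos h2, Set.indicator_of_mem (by exact h2)]
      simp
    · rw [if_neg h2, Set.indicator_of_notMem (by exact h2)]

/-- The nearest natural number to the value. -/
noncomputable def ph (k : ℕ) {l : ℕ} (α : Fin l → ℝ) (m : Fin l → ℕ) : ℕ := ⌊L k α m + 1 / 2⌋₊

theorem L_nonneg (k : ℕ) {l : ℕ} (α : Fin l → ℝ) (hα : ∀ i, 0 < α i) (m : Fin l → ℕ) :
    0 ≤ L k α m := by
  unfold Pool.Agent.W5h31.MS.L
  exact Finset.sum_nonneg fun i _ => mul_nonneg (hα i).le (by positivity)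

theorem ph_near (k : ℕ) {l : ℕ} (α : Fin l → ℝ) (hα : ∀ i, 0 < α i) (m : Fin l → ℕ) :
    |L k α m - (ph k α m : ℝ)| ≤ 1 / 2 := by
  have h0 := L_nonneg k α hα m
  have h1 : ((ph k α m : ℕ) : ℝ) ≤ L k α m + 1 / 2 := Nat.floor_le (by linarith)
  have h2 : L k α m + 1 / 2 < ((ph k α m : ℕ) : ℝ) + 1 := Nat.lt_floor_add_one _
  rw [abs_le]
  constructor <;> linarith

/-- Cauchy-Schwarz: many different nearest integers. -/
theorem image_bound (k n N : ℕ) (α : Fin (n + 1) → ℝ) (hα : ∀ i, 0 < α i) :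
    ((N : ℝ) ^ (n + 1)) ^ 2 ≤ (((box (n + 1) N).image (ph k α)).card : ℝ) *
      ((N : ℝ) ^ (n + 1) + Qn k n N α) := by
  classical
  set S := box (n + 1) N with hS
  set I := S.image (ph k α) with hI
  have hmaps : ∀ m ∈ S, ph k α m ∈ I := fun m hm => Finset.mem_image_of_mem _ hm
  have hcard : (S.card : ℝ) = ∑ y ∈ I, ((S.filter fun m => ph k α m = y).card : ℝ) := by
    rw [Finset.card_eq_sum_card_image (ph k α) S]
    push_cast
    rfl
  have hSc : (S.card : ℝ) = (N : ℝ) ^ (n + 1) := by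
    rw [hS, card_box]; push_cast; ring
  have hCS := sq_sum_le_card_mul_sum_sq (s := I)
    (f := fun y => ((S.filter fun m => ph k α m = y).card : ℝ))
  rw [← hcard, hSc] at hCS
  refine hCS.trans ?_
  refine mul_le_mul_of_nonneg_left ?_ (by positivity)
  have h1 : ∑ y ∈ I, ((S.filter fun m => ph k α m = y).card : ℝ) ^ 2 =
      ∑ m ∈ S, ((S.filter fun m' => ph k α m' = ph k α m).card : ℝ) := by
    rw [← Finset.sum_fiberwise_of_maps_to hmaps]
    refine Finset.sum_congr rfl fun y _ => ?_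
    have : ∀ m ∈ S.filter (fun m => ph k α m = y),
        ((S.filter fun m' => ph k α m' = ph k α m).card : ℝ) =
        ((S.filter fun m => ph k α m = y).card : ℝ) := by
      intro m hm
      rw [(Finset.mem_filter.mp hm).2]
    rw [Finset.sum_congr rfl this, Finset.sum_const, nsmul_eq_mul, sq]
  rw [h1]
  have h2 : ∀ m ∈ S, ((S.filter fun m' => ph k α m' = ph k α m).card : ℝ) ≤
      1 + ∑ m' ∈ S, ((if m = m' then 0 else if |L k α m - L k α m'| ≤ 1 then 1 else 0 : ℕ) : ℝ) := by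
    intro m hm
    have e1 : ((S.filter fun m' => ph k α m' = ph k α m).card : ℝ) =
        ∑ m' ∈ S, (if ph k α m' = ph k α m then (1 : ℝ) else 0) := by
      rw [Finset.card_filter]; push_cast; rfl
    have e2 : ∑ m' ∈ S, (if m = m' then (1 : ℝ) else 0) = 1 := by
      rw [Finset.sum_ite_eq, if_pos hm]
    have h7 : ∑ m' ∈ S, (if ph k α m' = ph k α m then (1 : ℝ) else 0) ≤
        ∑ m' ∈ S, ((if m = m' then (1 : ℝ) else 0) +
          ((if m = m' then 0 else if |L k α m - L k α m'| ≤ 1 then 1 else 0 : ℕ) : ℝ)) := by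
      refine Finset.sum_le_sum fun m' _ => ?_
      by_cases h : m = m'
      · subst h
        rw [if_pos rfl, if_pos rfl, if_pos rfl]
        simp
      · rw [if_neg h, if_neg h]
        by_cases h3 : ph k α m' = ph k α m
        · rw [if_pos h3]
          have h4 := ph_near k α hα m
          have h5 := ph_near k α hα m'
          rw [h3] at h5
          have h6 : |L k α m - L k α m'| ≤ 1 := by
            have := abs_le.mp h4
            have := abs_le.mp h5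
            rw [abs_le]
            constructor <;> linarith
          rw [if_pos h6]
          simp
        · rw [if_neg h3]
          positivity
    rw [Finset.sum_add_distrib, e2] at h7
    rw [e1]
    exact h7
  refine (Finset.sum_le_sum h2).trans (le_of_eq ?_)
  rw [Finset.sum_add_distrib, Finset.sum_const, nsmul_eq_mul, mul_one, hSc]
  unfold Qn
  push_cast
  rfl

/-- The integers up to `x` near a value. -/
def vals {l : ℕ} (k : ℕ) (α : Fin l → ℝ) (x : ℝ) : Set ℕ :=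
  {n | 1 ≤ n ∧ (n : ℝ) ≤ x ∧ ∃ m : Fin l → ℕ, |(∑ i, α i * (m i : ℝ) ^ k) - n| ≤ 1 / 2}

theorem vals_finite {l : ℕ} (k : ℕ) (α : Fin l → ℝ) (x : ℝ) : (vals k α x).Finite := by
  refine (Set.finite_Iic ⌊x⌋₊).subset fun n hn => ?_
  exact Nat.le_floor hn.2.1

/-- The counting at one scale. -/
theorem scale_count (k n : ℕ) (hk : 1 ≤ k) (α : Fin (n + 1) → ℝ) (hα : ∀ i, 0 < α i) (j : ℕ)
    (hj : 1 ≤ α 0 * 2 ^ j) (x W : ℝ) (hW : 0 < W)
    (hx : ((∑ i, α i) + 1) * 2 ^ k * ((2 : ℝ) ^ j) ^ k ≤ x)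
    (hQ : Off k n (2 ^ j) α ≤ ENNReal.ofReal (W * ((2 : ℝ) ^ j) ^ (n + 1))) :
    ((2 : ℝ) ^ j) ^ (n + 1) / (1 + W) ≤ ((vals k α x).ncard : ℝ) := by
  classical
  have hcast : ((2 ^ j : ℕ) : ℝ) = (2 : ℝ) ^ j := by push_cast; ring
  have hN1 : (1 : ℝ) ≤ 2 ^ j := one_le_pow₀ (by norm_num)
  have hib := image_bound k n (2 ^ j) α hα
  rw [Off_eq] at hQ
  have hQ' : (Qn k n (2 ^ j) α : ℝ) ≤ W * ((2 : ℝ) ^ j) ^ (n + 1) := by
    have h1 : ((Qn k n (2 ^ j) α : ℕ) : ENNReal) = ENNReal.ofReal (Qn k n (2 ^ j) α : ℝ) := by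
      rw [ENNReal.ofReal_natCast]
    rw [h1] at hQ
    exact (ENNReal.ofReal_le_ofReal_iff (by positivity)).mp hQ
  rw [hcast] at hib
  -- the image lies in the set
  have hsub : (((box (n + 1) (2 ^ j)).image (ph k α) : Finset ℕ) : Set ℕ) ⊆ vals k α x := by
    intro y hy
    rw [Finset.mem_coe, Finset.mem_image] at hy
    obtain ⟨m, hm, rfl⟩ := hy
    unfold box at hm
    rw [Fintype.mem_piFinset] at hm
    have h0 := L_nonneg k α hα m
    have hlow : 1 ≤ L k α m := by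
      have h1 : α 0 * (m 0 : ℝ) ^ k ≤ L k α m := by
        unfold Pool.Agent.W5h31.MS.L
        exact Finset.single_le_sum (f := fun i => α i * (m i : ℝ) ^ k)
          (fun i' _ => mul_nonneg (hα i').le (by positivity)) (Finset.mem_univ 0)
      have h2 : (2 : ℝ) ^ j ≤ (m 0 : ℝ) := by
        have := (Finset.mem_Ico.mp (hm 0)).1
        rw [← hcast]; exact_mod_cast this
      have h3 : (2 : ℝ) ^ j ≤ (m 0 : ℝ) ^ k := by
        calc (2 : ℝ) ^ j ≤ (m 0 : ℝ) := h2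
          _ ≤ (m 0 : ℝ) ^ k := le_self_pow₀ (hN1.trans h2) (by omega)
      have h4 := mul_le_mul_of_nonneg_left h3 (hα 0).le
      linarith
    have hup : L k α m ≤ (∑ i, α i) * (2 ^ k * ((2 : ℝ) ^ j) ^ k) := by
      unfold Pool.Agent.W5h31.MS.L
      rw [Finset.sum_mul]
      refine Finset.sum_le_sum fun i _ => mul_le_mul_of_nonneg_left ?_ (hα i).le
      have h2 : (m i : ℝ) ≤ 2 * (2 : ℝ) ^ j := by
        have := (Finset.mem_Ico.mp (hm i)).2
        rw [← hcast]; exact_mod_cast this.le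
      rw [← mul_pow]
      exact pow_le_pow_left₀ (by positivity) h2 k
    refine ⟨?_, ?_, m, ?_⟩
    · unfold ph
      exact Nat.le_floor (by push_cast; linarith)
    · have h1 : ((ph k α m : ℕ) : ℝ) ≤ L k α m + 1 / 2 := Nat.floor_le (by linarith)
      have h2 : (1 : ℝ) ≤ 2 ^ k * ((2 : ℝ) ^ j) ^ k :=
        one_le_mul_of_one_le_of_one_le (one_le_pow₀ (by norm_num)) (one_le_pow₀ hN1)
      have h3 : ((∑ i, α i) + 1) * 2 ^ k * ((2 : ℝ) ^ j) ^ k =
          (∑ i, α i) * (2 ^ k * ((2 : ℝ) ^ j) ^ k) + 2 ^ k * ((2 : ℝ) ^ j) ^ k := by ring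
      linarith
    · exact ph_near k α hα m
  have hcard : (((box (n + 1) (2 ^ j)).image (ph k α)).card : ℝ) ≤ ((vals k α x).ncard : ℝ) := by
    have := Set.ncard_le_ncard hsub (vals_finite k α x)
    rw [Set.ncard_coe_finset] at this
    exact_mod_cast this
  set X : ℝ := ((2 : ℝ) ^ j) ^ (n + 1) with hX
  have hX0 : 0 < X := by positivity
  set c : ℝ := (((box (n + 1) (2 ^ j)).image (ph k α)).card : ℝ) with hc
  have hc0 : 0 ≤ c := by positivity
  have h5 : X ^ 2 ≤ c * (X * (1 + W)) := by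
    refine hib.trans (mul_le_mul_of_nonneg_left ?_ hc0)
    linarith
  have h6 : X ≤ c * (1 + W) := by
    have : X * X ≤ X * (c * (1 + W)) := by nlinarith
    exact le_of_mul_le_mul_left this hX0
  rw [div_le_iff₀ (by positivity)]
  exact h6.trans (mul_le_mul_of_nonneg_right hcard (by positivity))

/-- Choice of the scale. -/
theorem choose_scale (k : ℕ) (hk : 1 ≤ k) (β : ℝ) (hβ : 1 ≤ β) (j₀ : ℕ) (x : ℝ)
    (hx : β * ((2 : ℝ) ^ j₀) ^ k ≤ x) :
    ∃ j, j₀ ≤ j ∧ β * ((2 : ℝ) ^ j) ^ k ≤ x ∧ x < β * 2 ^ k * ((2 : ℝ) ^ j) ^ k ∧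
      (2 : ℝ) ^ j ≤ x := by
  classical
  have hex : ∃ i, x < β * ((2 : ℝ) ^ i) ^ k := by
    obtain ⟨i, hi⟩ := pow_unbounded_of_one_lt x (by norm_num : (1 : ℝ) < 2)
    refine ⟨i, ?_⟩
    have h1 : (1 : ℝ) ≤ 2 ^ i := one_le_pow₀ (by norm_num)
    have h2 : (2 : ℝ) ^ i ≤ ((2 : ℝ) ^ i) ^ k := le_self_pow₀ h1 (by omega)
    nlinarith
  set i := Nat.find hex with hi
  have hspec : x < β * ((2 : ℝ) ^ i) ^ k := Nat.find_spec hex
  have hlt : j₀ < i := by
    by_contra hcon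
    push Not at hcon
    have h1 : ((2 : ℝ) ^ i) ^ k ≤ ((2 : ℝ) ^ j₀) ^ k :=
      pow_le_pow_left₀ (by positivity) (pow_le_pow_right₀ (by norm_num) hcon) k
    have h2 : β * ((2 : ℝ) ^ i) ^ k ≤ β * ((2 : ℝ) ^ j₀) ^ k :=
      mul_le_mul_of_nonneg_left h1 (by linarith)
    linarith
  obtain ⟨j, hj⟩ : ∃ j, i = j + 1 := ⟨i - 1, by omega⟩
  have hmin : ¬ x < β * ((2 : ℝ) ^ j) ^ k := Nat.find_min hex (by omega)
  push Not at hmin
  refine ⟨j, by omega, hmin, ?_, ?_⟩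
  · rw [hj, pow_succ, mul_pow] at hspec
    linarith [mul_comm (((2 : ℝ) ^ j) ^ k) (2 ^ k)]
  · have h1 : (1 : ℝ) ≤ 2 ^ j := one_le_pow₀ (by norm_num)
    have h2 : (2 : ℝ) ^ j ≤ ((2 : ℝ) ^ j) ^ k := le_self_pow₀ h1 (by omega)
    nlinarith

/-- From boxes to all positive coefficient vectors. -/
theorem all_pos (l : ℕ) (P : (Fin l → ℝ) → Prop)
    (h : ∀ A B : ℝ, 0 < A → A ≤ B → ∀ᵐ α ∂(mu l A B), P α) :
    ∀ᵐ α : Fin l → ℝ, (∀ i, 0 < α i) → P α := by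
  have hbox : ∀ p : ℕ, ∀ᵐ α : Fin l → ℝ,
      α ∈ Set.pi Set.univ (fun _ : Fin l => Set.Icc (1 / ((p : ℝ) + 1)) ((p : ℝ) + 2)) → P α := by
    intro p
    have hp : (0 : ℝ) ≤ p := by positivity
    have h1 : 1 / ((p : ℝ) + 1) ≤ (p : ℝ) + 2 := by
      rw [div_le_iff₀ (by positivity)]
      nlinarith
    have h2 := h (1 / ((p : ℝ) + 1)) ((p : ℝ) + 2) (by positivity) h1
    rw [Pool.Agent.W5h31.MS.mu_eq] at h2
    exact (ae_restrict_iff' (MeasurableSet.univ_pi fun _ => measurableSet_Icc)).mp h2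
  filter_upwards [ae_all_iff.mpr hbox] with α hα hpos
  obtain ⟨p, hp⟩ : ∃ p : ℕ, ∀ i, 1 / ((p : ℝ) + 1) ≤ α i ∧ α i ≤ (p : ℝ) + 2 := by
    obtain ⟨p, hp⟩ := exists_nat_ge (∑ i, (α i + 1 / α i))
    refine ⟨p, fun i => ?_⟩
    have h1 : α i + 1 / α i ≤ p := by
      refine le_trans ?_ hp
      exact Finset.single_le_sum (f := fun i => α i + 1 / α i)
        (fun i' _ => by have := hpos i'; positivity) (Finset.mem_univ i)
    have h2 := hpos i
    have h3 : 0 < 1 / α i := by positivity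
    constructor
    · rw [div_le_iff₀ (by positivity)]
      have h4 : 1 / α i ≤ p := by linarith
      rw [div_le_iff₀ h2] at h4
      nlinarith
    · linarith
  exact hα p fun i _ => ⟨(hp i).1, (hp i).2⟩

/-- The common conclusion. -/
theorem common (k n : ℕ) (hk : 1 ≤ k) (W : ℕ → ℝ) (hW : ∀ j, 0 < W j)
    (hsum : Summable fun j : ℕ => ((2 : ℝ) ^ j) ^ n / ((2 : ℝ) ^ j) ^ (k - 1) * ((j : ℝ) + 1) / W j) :
    ∀ᵐ α : Fin (n + 1) → ℝ, (∀ i, 0 < α i) → ∃ β x₀ : ℝ, 1 ≤ β ∧ ∀ x : ℝ, x₀ ≤ x →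
      ∃ j : ℕ, x < β * ((2 : ℝ) ^ j) ^ k ∧ (2 : ℝ) ^ j ≤ x ∧
        ((2 : ℝ) ^ j) ^ (n + 1) / (1 + W j) ≤ ((vals k α x).ncard : ℝ) := by
  have h := all_pos (n + 1) (fun α => ∀ᶠ j : ℕ in atTop,
      Off k n (2 ^ j) α ≤ ENNReal.ofReal (W j * ((2 : ℝ) ^ j) ^ (n + 1)))
    (fun A B _ hAB => ae_few k n hk A B hAB W hW hsum)
  filter_upwards [h] with α hα hpos
  obtain ⟨j₁, hj₁⟩ := eventually_atTop.mp (hα hpos)
  obtain ⟨j₂, hj₂⟩ := pow_unbounded_of_one_lt (1 / α 0) (by norm_num : (1 : ℝ) < 2)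
  set σ : ℝ := (∑ i, α i) + 1 with hσ
  have hσ1 : 1 ≤ σ := by
    have : 0 ≤ ∑ i, α i := Finset.sum_nonneg fun i _ => (hpos i).le
    linarith
  have h2k : (1 : ℝ) ≤ 2 ^ k := one_le_pow₀ (by norm_num)
  have hβ1 : 1 ≤ σ * 2 ^ k := one_le_mul_of_one_le_of_one_le hσ1 h2k
  refine ⟨σ * 2 ^ k * 2 ^ k, σ * 2 ^ k * ((2 : ℝ) ^ (max j₁ j₂)) ^ k,
    one_le_mul_of_one_le_of_one_le hβ1 h2k, ?_⟩
  intro x hx
  obtain ⟨j, hj, h1, h2, h3⟩ := choose_scale k hk (σ * 2 ^ k) hβ1 (max j₁ j₂) x hx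
  refine ⟨j, h2, h3, ?_⟩
  refine scale_count k n hk α hpos j ?_ x (W j) (hW j) h1 (hj₁ j ((le_max_left _ _).trans hj))
  have h4 : (2 : ℝ) ^ j₂ ≤ 2 ^ j := pow_le_pow_right₀ (by norm_num) ((le_max_right _ _).trans hj)
  have h5 : 1 / α 0 ≤ 2 ^ j := by linarith
  rw [div_le_iff₀ (hpos 0)] at h5
  linarith [mul_comm (α 0) ((2 : ℝ) ^ j)]

/-- Fewer than `k` variables. -/
theorem below (k n : ℕ) (hnk : n + 1 < k) :
    ∀ᵐ α : Fin (n + 1) → ℝ, (∀ i, 0 < α i) → ∃ c x₀ : ℝ, 0 < c ∧ ∀ x : ℝ, x₀ ≤ x →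
      c * x ^ (((n + 1 : ℕ) : ℝ) / k) ≤ ((vals k α x).ncard : ℝ) := by
  have hsum : Summable fun j : ℕ =>
      ((2 : ℝ) ^ j) ^ n / ((2 : ℝ) ^ j) ^ (k - 1) * ((j : ℝ) + 1) / (1 : ℝ) := by
    have h := Pool.Agent.W5h31.MS.summable_scales 1
    refine Summable.of_nonneg_of_le (fun j => by positivity) (fun j => ?_) h
    have hq : (1 : ℝ) ≤ 2 ^ j := one_le_pow₀ (by norm_num)
    have h1 : ((2 : ℝ) ^ j) ^ n / ((2 : ℝ) ^ j) ^ (k - 1) ≤ 1 / 2 ^ j := by
      rw [div_le_div_iff₀ (by positivity) (by positivity), one_mul, ← pow_succ]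
      exact pow_le_pow_right₀ hq (by omega)
    rw [div_one, pow_one]
    calc ((2 : ℝ) ^ j) ^ n / ((2 : ℝ) ^ j) ^ (k - 1) * ((j : ℝ) + 1) ≤
        1 / 2 ^ j * ((j : ℝ) + 1) := mul_le_mul_of_nonneg_right h1 (by positivity)
      _ = _ := by ring
  filter_upwards [common k n (by omega) (fun _ => 1) (fun _ => one_pos) hsum] with α hα hpos
  obtain ⟨β, x₀, hβ, h⟩ := hα hpos
  have hk0 : (0 : ℝ) < k := by exact_mod_cast (by omega : 0 < k)
  have hβ0 : 0 < β := by linarith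
  refine ⟨1 / 2 * (1 / β) ^ (((n + 1 : ℕ) : ℝ) / k), max x₀ 1, by positivity, ?_⟩
  intro x hx
  have hx0 : x₀ ≤ x := (le_max_left _ _).trans hx
  have hx1 : 1 ≤ x := (le_max_right _ _).trans hx
  have hxpos : 0 < x := by linarith
  obtain ⟨j, h1, h2, h3⟩ := h x hx0
  refine le_trans ?_ h3
  have h4 : 1 / β * x ≤ ((2 : ℝ) ^ j) ^ k := by
    rw [one_div_mul_eq_div, div_le_iff₀ hβ0]
    linarith [mul_comm β (((2 : ℝ) ^ j) ^ k)]
  have h5 : (1 / β * x) ^ (((n + 1 : ℕ) : ℝ) / k) ≤ ((2 : ℝ) ^ j) ^ (n + 1) := by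
    calc (1 / β * x) ^ (((n + 1 : ℕ) : ℝ) / k) ≤
        (((2 : ℝ) ^ j) ^ k) ^ (((n + 1 : ℕ) : ℝ) / k) :=
          Real.rpow_le_rpow (by positivity) h4 (by positivity)
      _ = ((2 : ℝ) ^ j) ^ (n + 1) := by
          rw [← Real.rpow_natCast ((2 : ℝ) ^ j) k, ← Real.rpow_mul (by positivity),
            mul_div_cancel₀ _ hk0.ne', Real.rpow_natCast]
  rw [Real.mul_rpow (by positivity) hxpos.le] at h5
  have e : ((2 : ℝ) ^ j) ^ (n + 1) / (1 + 1) = 1 / 2 * ((2 : ℝ) ^ j) ^ (n + 1) := by ring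
  rw [e, mul_assoc]
  exact mul_le_mul_of_nonneg_left h5 (by norm_num)

/-- Exactly `k` variables. -/
theorem diagonal (k : ℕ) (hk : 1 ≤ k) :
    ∀ᵐ α : Fin k → ℝ, (∀ i, 0 < α i) → ∃ c x₀ : ℝ, 0 < c ∧ ∀ x : ℝ, x₀ ≤ x →
      c * (x / (1 + Real.log x) ^ 3) ≤ ((vals k α x).ncard : ℝ) := by
  obtain ⟨n, rfl⟩ : ∃ n, k = n + 1 := ⟨k - 1, by omega⟩
  have hsum : Summable fun j : ℕ =>
      ((2 : ℝ) ^ j) ^ n / ((2 : ℝ) ^ j) ^ (n + 1 - 1) * ((j : ℝ) + 1) / ((j : ℝ) + 1) ^ 3 := by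
    have h := (summable_nat_add_iff 1).2 (Real.summable_one_div_nat_pow.mpr (by norm_num : 1 < 2))
    refine h.congr fun j => ?_
    have e : n + 1 - 1 = n := by omega
    rw [e, div_self (by positivity)]
    push_cast
    field_simp
  filter_upwards [common (n + 1) n hk (fun j => ((j : ℝ) + 1) ^ 3) (fun j => by positivity) hsum]
    with α hα hpos
  obtain ⟨β, x₀, hβ, h⟩ := hα hpos
  have hβ0 : 0 < β := by linarith
  refine ⟨1 / (9 * β), max x₀ 1, by positivity, ?_⟩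
  intro x hx
  have hx0 : x₀ ≤ x := (le_max_left _ _).trans hx
  have hx1 : 1 ≤ x := (le_max_right _ _).trans hx
  have hxpos : 0 < x := by linarith
  have hlog : 0 ≤ Real.log x := Real.log_nonneg hx1
  obtain ⟨j, h1, h2, h3⟩ := h x hx0
  refine le_trans ?_ h3
  have h4 : 1 / β * x ≤ ((2 : ℝ) ^ j) ^ (n + 1) := by
    rw [one_div_mul_eq_div, div_le_iff₀ hβ0]
    linarith [mul_comm β (((2 : ℝ) ^ j) ^ (n + 1))]
  have hj : (j : ℝ) ≤ 2 * Real.log x := by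
    have h5 : Real.log ((2 : ℝ) ^ j) ≤ Real.log x := Real.log_le_log (by positivity) h2
    rw [Real.log_pow] at h5
    have h6 : 1 / 2 ≤ Real.log 2 := by
      have := Real.log_two_gt_d9; linarith
    have h7 : (0 : ℝ) ≤ j := by positivity
    nlinarith
  have h8 : 1 + ((j : ℝ) + 1) ^ 3 ≤ 9 * (1 + Real.log x) ^ 3 := by
    have h9 : ((j : ℝ) + 1) ^ 3 ≤ (2 * (1 + Real.log x)) ^ 3 :=
      pow_le_pow_left₀ (by positivity) (by linarith) 3
    have h10 : (1 : ℝ) ≤ (1 + Real.log x) ^ 3 := one_le_pow₀ (by linarith)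
    rw [mul_pow] at h9
    linarith
  calc 1 / (9 * β) * (x / (1 + Real.log x) ^ 3) = (1 / β * x) / (9 * (1 + Real.log x) ^ 3) := by
        field_simp
    _ ≤ ((2 : ℝ) ^ j) ^ (n + 1) / (9 * (1 + Real.log x) ^ 3) :=
        div_le_div_of_nonneg_right h4 (by positivity)
    _ ≤ ((2 : ℝ) ^ j) ^ (n + 1) / (1 + ((j : ℝ) + 1) ^ 3) :=
        div_le_div_of_nonneg_left (by positivity) (by positivity) h8

end Pool.Agent.W5h31.MT
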